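import Pool.Agent.H.MP_6d476a.C

namespace Pool.Agent.Results.MP_69956f_gt.Counter

open Pool.Agent.H.MP_6d476a

/-- scattered continuity -/
def SC {X : Type*} [TopologicalSpace X] (f : X → ℝ) : Prop :=
  ∀ A : Set X, A.Nonempty → ∃ a ∈ A, ContinuousWithinAt f A a

theorem result : ∃ K : Set ((ℕ → ℕ) → ℝ), IsCompact K ∧ (∀ g ∈ K, SC g) ∧
    (∃ (ι : Type) (C : Set (ι → ℝ)), Cardinal.mk ι = Cardinal.continuum ∧ IsCompact C ∧
      Convex ℝ C ∧ Nonempty (K ≃ₜ C)) ∧ ¬ TopologicalSpace.MetrizableSpace K := by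
  have : CompactSpace B1 := isCompact_iff_compactSpace.1 B1_compact
  let e : B1 ≃ₜ em '' B1 := Continuous.homeoOfEquivCompactToT2
    (f := Equiv.Set.imageOfInjOn em B1 em_inj)
    ((em_cont.comp continuous_subtype_val).subtype_mk _)
  refine ⟨em '' B1, B1_compact.image em_cont, ?_,
    ⟨ℕ → ℕ, B1, by simp, B1_compact, B1_convex, ⟨e.symm⟩⟩,
    fun _ => B1_not e.isEmbedding.metrizableSpace⟩
  rintro _ ⟨x, hx, rfl⟩
  exact em_sc hx

end Pool.Agent.Results.MP_69956f_gt.Counter
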